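import Mathlib

/-!
# Isometric embeddings into `ℓ_p(X)`, `p > 1`, need `dim X ≥ n / 2`

Let `M` be the cocktail-party metric on `n = 2 m` points: `m` pairs at distance `2`, all other
distances `1`.  If `M` embeds isometrically into `ℓ_p(X)` and `p > 1`, then equality in
Minkowski's inequality forces all coordinates of the embedding to be (scaled) isometric copies of
`M` in `X`, and there the `m` differences of pairs are linearly independent, because the norming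
functional of one pair is constant on all other points.  Hence `dim X ≥ m = n / 2`, which
contradicts `dim X ≤ n ^ (C / (p D))` for `D = 1`, `p = C + 1` and large `n`.
-/

namespace Pool.Agent.Results.MP_8476ae_an.IsometricCase

open Set Filter

/-- `M` embeds with bi-Lipschitz distortion `D` into `ℓ_p(X)`. -/
def EmbedsInLp (M : Type) [MetricSpace M] (X : Type) [NormedAddCommGroup X] (p D : ℝ) : Prop :=
  ∃ f : M → lp (fun _ : ℕ => X) (ENNReal.ofReal p),
    ∀ x y : M, dist x y ≤ ‖f x - f y‖ ∧ ‖f x - f y‖ ≤ D * dist x y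

/-- The positive answer to Q1. -/
def Question : Prop :=
  ∃ C : ℝ, 1 ≤ C ∧ ∀ p D : ℝ, 1 ≤ p → 1 ≤ D → ∃ n₀ : ℕ, ∀ n : ℕ, n₀ ≤ n →
    ∀ (M : Type) [MetricSpace M] [Fintype M], Fintype.card M = n →
      ∃ k : ℕ, (k : ℝ) ≤ (n : ℝ) ^ (C / (p * D)) ∧
        ∃ (X : Type) (_ : NormedAddCommGroup X) (_ : NormedSpace ℝ X),
          FiniteDimensional ℝ X ∧ Module.finrank ℝ X = k ∧ EmbedsInLp M X p D

/-! ### The cocktail-party metric -/

/-- The `2 m` points of the cocktail-party metric space: `m` pairs. -/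
structure Cocktail (m : ℕ) where
  idx : Fin m
  side : Bool
deriving DecidableEq, Fintype

/-- the distance: `2` within a pair, `1` between different pairs -/
def cdist {m : ℕ} (x y : Cocktail m) : ℝ :=
  if x.idx = y.idx then (if x.side = y.side then 0 else 2) else 1

instance (m : ℕ) : MetricSpace (Cocktail m) where
  dist := cdist
  dist_self x := by simp [cdist]
  dist_comm x y := by simp only [cdist, eq_comm]
  dist_triangle x y z := by
    obtain ⟨i, a⟩ := x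
    obtain ⟨j, b⟩ := y
    obtain ⟨k, c⟩ := z
    simp only [cdist]
    by_cases h1 : i = j <;> by_cases h2 : j = k <;> by_cases h3 : i = k <;>
      by_cases h4 : a = b <;> by_cases h5 : b = c <;> by_cases h6 : a = c <;>
      simp_all <;> norm_num
  eq_of_dist_eq_zero := by
    rintro ⟨i, a⟩ ⟨j, b⟩ h
    simp only [cdist] at h
    by_cases h1 : i = j <;> by_cases h2 : a = b <;> simp_all

lemma dist_def {m : ℕ} (x y : Cocktail m) :
    dist x y = if x.idx = y.idx then (if x.side = y.side then 0 else 2) else 1 := rfl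

lemma card_cocktail (m : ℕ) : Fintype.card (Cocktail m) = 2 * m := by
  have e : Cocktail m ≃ Fin m × Bool :=
    ⟨fun x => (x.idx, x.side), fun x => ⟨x.1, x.2⟩, fun _ => rfl, fun _ => rfl⟩
  rw [Fintype.card_congr e]
  simp [mul_comm]

/-! ### Equality in Minkowski's inequality -/

lemma rpow_aux {P x y : ℝ} (hP : 1 < P) (hx : 0 ≤ x) (hy : 0 ≤ y) :
    (x + y) ^ P ≤ 2 ^ (P - 1) * (x ^ P + y ^ P) ∧
      ((x + y) ^ P = 2 ^ (P - 1) * (x ^ P + y ^ P) → x = y) := by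
  have h2 : ((x + y) / 2) ^ P = (x + y) ^ P / 2 ^ P :=
    Real.div_rpow (add_nonneg hx hy) zero_le_two P
  have h3 : (2 : ℝ) ^ (P - 1) = 2 ^ P / 2 := by
    rw [Real.rpow_sub_one (by norm_num)]
  have h4 : (0 : ℝ) < 2 ^ P := Real.rpow_pos_of_pos two_pos _
  have hconv := strictConvexOn_rpow hP
  by_cases hxy : x = y
  · subst hxy
    refine ⟨?_, fun _ => rfl⟩
    rw [h3, show x + x = 2 * x by ring, Real.mul_rpow zero_le_two hx]
    apply le_of_eq
    ring
  · have h := hconv.2 (show x ∈ Ici (0:ℝ) from hx) (show y ∈ Ici (0:ℝ) from hy) hxy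
      (show (0:ℝ) < 1/2 by norm_num) (show (0:ℝ) < 1/2 by norm_num) (by norm_num)
    simp only [smul_eq_mul] at h
    rw [show 1 / 2 * x + 1 / 2 * y = (x + y) / 2 by ring, h2, div_lt_iff₀ h4] at h
    have h5 : (x + y) ^ P < 2 ^ (P - 1) * (x ^ P + y ^ P) := by
      rw [h3]
      calc (x + y) ^ P < _ := h
        _ = _ := by ring
    exact ⟨h5.le, fun h6 => absurd h6 h5.ne⟩

/-- If `u, v ∈ ℓ_p(X)`, `p > 1`, are unit vectors with `‖u + v‖ = 2`, then `‖u_k‖ = ‖v_k‖` and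
`‖u_k + v_k‖ = 2 ‖u_k‖` for all coordinates `k`. -/
lemma equality_case {X : Type} [NormedAddCommGroup X] {p : ℝ} (hp : 1 < p)
    (u v : lp (fun _ : ℕ => X) (ENNReal.ofReal p)) (hu : ‖u‖ = 1) (hv : ‖v‖ = 1)
    (huv : ‖u + v‖ = 2) (k : ℕ) : ‖u k‖ = ‖v k‖ ∧ ‖u k + v k‖ = 2 * ‖u k‖ := by
  have hp0 : 0 < p := by linarith
  have hP : (ENNReal.ofReal p).toReal = p := ENNReal.toReal_ofReal hp0.le
  have hP0 : 0 < (ENNReal.ofReal p).toReal := by rw [hP]; exact hp0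
  have su := (lp.memℓp u).summable hP0
  have sv := (lp.memℓp v).summable hP0
  have suv := (lp.memℓp (u + v)).summable hP0
  have nu := lp.norm_rpow_eq_tsum hP0 u
  have nv := lp.norm_rpow_eq_tsum hP0 v
  have nuv := lp.norm_rpow_eq_tsum hP0 (u + v)
  rw [hP] at su sv suv nu nv nuv
  rw [hu, Real.one_rpow] at nu
  rw [hv, Real.one_rpow] at nv
  rw [huv] at nuv
  have hterm : ∀ i, ‖(u + v) i‖ ^ p ≤ 2 ^ (p - 1) * (‖u i‖ ^ p + ‖v i‖ ^ p) := by
    intro i
    refine le_trans (Real.rpow_le_rpow (norm_nonneg _) (norm_add_le (u i) (v i)) hp0.le) ?_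
    exact (rpow_aux hp (norm_nonneg _) (norm_nonneg _)).1
  have ssum : Summable fun i => 2 ^ (p - 1) * (‖u i‖ ^ p + ‖v i‖ ^ p) :=
    (su.add sv).mul_left _
  have htot : ∑' i, (2 ^ (p - 1) * (‖u i‖ ^ p + ‖v i‖ ^ p) - ‖(u + v) i‖ ^ p) = 0 := by
    rw [ssum.tsum_sub suv, tsum_mul_left, su.tsum_add sv, ← nu, ← nv, ← nuv,
      Real.rpow_sub_one (by norm_num)]
    ring
  have hz : ∀ i, 2 ^ (p - 1) * (‖u i‖ ^ p + ‖v i‖ ^ p) - ‖(u + v) i‖ ^ p = 0 := by
    have h1 : HasSum (fun i => 2 ^ (p - 1) * (‖u i‖ ^ p + ‖v i‖ ^ p) - ‖(u + v) i‖ ^ p) 0 := by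
      rw [← htot]
      exact (ssum.sub suv).hasSum
    have h2 := (hasSum_zero_iff_of_nonneg (fun i => sub_nonneg.2 (hterm i))).1 h1
    intro i
    exact congrFun h2 i
  have hk := hz k
  have hle : ‖(u + v) k‖ ^ p ≤ (‖u k‖ + ‖v k‖) ^ p :=
    Real.rpow_le_rpow (norm_nonneg _) (norm_add_le (u k) (v k)) hp0.le
  have haux := rpow_aux hp (norm_nonneg (u k)) (norm_nonneg (v k))
  have heq : (‖u k‖ + ‖v k‖) ^ p = 2 ^ (p - 1) * (‖u k‖ ^ p + ‖v k‖ ^ p) := by
    apply le_antisymm haux.1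
    linarith
  have hxy := haux.2 heq
  refine ⟨hxy, ?_⟩
  have h5 : ‖(u + v) k‖ ^ p = (2 * ‖u k‖) ^ p := by
    rw [show 2 * ‖u k‖ = ‖u k‖ + ‖v k‖ by rw [← hxy]; ring, heq]
    linarith
  have h6 := (Real.rpow_left_inj (norm_nonneg _) (by positivity) hp0.ne').1 h5
  simpa using h6

/-- **Lower bound.**  An isometric embedding of the cocktail-party metric on `2 m` points into
`ℓ_p(X)`, `p > 1`, requires `dim X ≥ m`. -/
theorem lower_bound {m : ℕ} (hm : 2 ≤ m) {p : ℝ} (hp : 1 < p) (X : Type)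
    [NormedAddCommGroup X] [NormedSpace ℝ X] [FiniteDimensional ℝ X]
    (h : EmbedsInLp (Cocktail m) X p 1) : m ≤ Module.finrank ℝ X := by
  obtain ⟨f, hf⟩ := h
  have hiso : ∀ x y, ‖f x - f y‖ = dist x y := fun x y =>
    le_antisymm (by simpa using (hf x y).2) (hf x y).1
  -- coordinates
  have hcoord : ∀ (k : ℕ) (i j : Fin m) (b : Bool), j ≠ i →
      ‖f ⟨i, true⟩ k - f ⟨j, b⟩ k‖ = ‖f ⟨j, b⟩ k - f ⟨i, false⟩ k‖ ∧
      ‖f ⟨i, true⟩ k - f ⟨i, false⟩ k‖ = 2 * ‖f ⟨i, true⟩ k - f ⟨j, b⟩ k‖ := by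
    intro k i j b hij
    have h1 := equality_case hp (f ⟨i, true⟩ - f ⟨j, b⟩) (f ⟨j, b⟩ - f ⟨i, false⟩)
      (by rw [hiso, dist_def]; simp [hij.symm]) (by rw [hiso, dist_def]; simp [hij])
      (by rw [sub_add_sub_cancel, hiso, dist_def]; simp) k
    simpa using h1
  have hex : ∀ i : Fin m, ∃ j : Fin m, j ≠ i := by
    intro i
    have : Nontrivial (Fin m) := Fin.nontrivial_iff_two_le.2 hm
    exact exists_ne i
  -- a coordinate in which some pair is separated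
  have hm0 : 0 < m := by omega
  obtain ⟨k, hk⟩ : ∃ k, f ⟨⟨0, hm0⟩, true⟩ k ≠ f ⟨⟨0, hm0⟩, false⟩ k := by
    by_contra hcon
    push Not at hcon
    have h1 : f ⟨⟨0, hm0⟩, true⟩ = f ⟨⟨0, hm0⟩, false⟩ := by
      ext k
      exact hcon k
    have h2 := hiso ⟨⟨0, hm0⟩, true⟩ ⟨⟨0, hm0⟩, false⟩
    rw [h1, sub_self, lp.norm_zero, dist_def] at h2
    simp at h2
  let g : Cocktail m → X := fun x => f x k
  have hg1 : ∀ (i j : Fin m) (b : Bool), j ≠ i →
      ‖g ⟨i, true⟩ - g ⟨j, b⟩‖ = ‖g ⟨j, b⟩ - g ⟨i, false⟩‖ ∧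
      ‖g ⟨i, true⟩ - g ⟨i, false⟩‖ = 2 * ‖g ⟨i, true⟩ - g ⟨j, b⟩‖ := hcoord k
  have hconst : ∀ i j : Fin m, ‖g ⟨i, true⟩ - g ⟨i, false⟩‖ = ‖g ⟨j, true⟩ - g ⟨j, false⟩‖ := by
    intro i j
    rcases eq_or_ne j i with rfl | hij
    · rfl
    · rw [(hg1 i j true hij).2, (hg1 j i true hij.symm).2, norm_sub_rev]
  have hpos : ∀ i : Fin m, 0 < ‖g ⟨i, true⟩ - g ⟨i, false⟩‖ := by
    intro i
    rw [hconst i ⟨0, hm0⟩]
    exact norm_pos_iff.2 (sub_ne_zero.2 hk)
  -- norming functionals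
  have hφ : ∀ i : Fin m, ∃ φ : StrongDual ℝ X, ‖φ‖ = 1 ∧
      φ (g ⟨i, true⟩ - g ⟨i, false⟩) = ‖g ⟨i, true⟩ - g ⟨i, false⟩‖ := by
    intro i
    obtain ⟨φ, h1, h2⟩ := exists_dual_vector ℝ (g ⟨i, true⟩ - g ⟨i, false⟩)
      (hpos i).ne'
    exact ⟨φ, h1, by simpa using h2⟩
  choose φ hφ1 hφ2 using hφ
  have hbio : ∀ i j : Fin m, j ≠ i → φ i (g ⟨j, true⟩ - g ⟨j, false⟩) = 0 := by
    intro i j hij
    have key : ∀ b : Bool, φ i (g ⟨j, b⟩) =
        φ i (g ⟨i, true⟩) - ‖g ⟨i, true⟩ - g ⟨i, false⟩‖ / 2 := by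
      intro b
      obtain ⟨h1, h2⟩ := hg1 i j b hij
      have h3 : φ i (g ⟨i, true⟩ - g ⟨j, b⟩) ≤ ‖g ⟨i, true⟩ - g ⟨j, b⟩‖ := by
        have := (φ i).le_opNorm (g ⟨i, true⟩ - g ⟨j, b⟩)
        rw [hφ1, one_mul] at this
        exact (le_abs_self _).trans this
      have h4 : φ i (g ⟨j, b⟩ - g ⟨i, false⟩) ≤ ‖g ⟨j, b⟩ - g ⟨i, false⟩‖ := by
        have := (φ i).le_opNorm (g ⟨j, b⟩ - g ⟨i, false⟩)
        rw [hφ1, one_mul] at this
        exact (le_abs_self _).trans this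
      have h5 := hφ2 i
      rw [map_sub] at h3 h4 h5
      linarith
    rw [map_sub, key true, key false, sub_self]
  have hli : LinearIndependent ℝ (fun i : Fin m => g ⟨i, true⟩ - g ⟨i, false⟩) := by
    rw [Fintype.linearIndependent_iff]
    intro c hc i
    have h1 : φ i (∑ j, c j • (g ⟨j, true⟩ - g ⟨j, false⟩)) = 0 := by rw [hc, map_zero]
    rw [map_sum, Finset.sum_eq_single i] at h1
    · rw [map_smul, hφ2, smul_eq_mul, mul_eq_zero] at h1
      rcases h1 with h1 | h1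
      · exact h1
      · exact absurd h1 (hpos i).ne'
    · intro j _ hji
      rw [map_smul, hbio i j hji, smul_zero]
    · intro hi
      exact absurd (Finset.mem_univ i) hi
  simpa using hli.fintype_card_le_finrank

/-- **Negative answer to Q1.**  For every `p > 1` an isometric (`D = 1`) embedding of the
cocktail-party metric space with `n = 2 m` points into `ℓ_p(X)` requires `dim X ≥ n / 2`;
hence no universal constant `C` as in Q1 exists. -/
theorem result :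
    (∀ m : ℕ, 2 ≤ m → ∀ p : ℝ, 1 < p → ∀ (X : Type) [NormedAddCommGroup X] [NormedSpace ℝ X]
      [FiniteDimensional ℝ X], EmbedsInLp (Cocktail m) X p 1 → m ≤ Module.finrank ℝ X) ∧
    ¬ Question := by
  refine ⟨fun m hm p hp X _ _ _ h => lower_bound hm hp X h, ?_⟩
  rintro ⟨C, hC, hQ⟩
  obtain ⟨n₀, hn₀⟩ := hQ (C + 1) 1 (by linarith) le_rfl
  obtain ⟨m₁, hm₁⟩ := exists_nat_gt ((2 : ℝ) ^ C)
  set m : ℕ := max (max n₀ m₁) 2 with hmdef
  have hm2 : 2 ≤ m := le_max_right _ _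
  have hmn : n₀ ≤ 2 * m := by
    have : n₀ ≤ m := (le_max_left _ _).trans (le_max_left _ _)
    omega
  have hmC : (2 : ℝ) ^ C < m := by
    refine hm₁.trans_le ?_
    exact_mod_cast (le_max_right n₀ m₁).trans (le_max_left _ _)
  obtain ⟨k, hk, X, i1, i2, hfd, hfr, hemb⟩ := hn₀ (2 * m) hmn (Cocktail m) (card_cocktail m)
  have h1 := lower_bound hm2 (by linarith : (1 : ℝ) < C + 1) X hemb
  rw [hfr] at h1
  have hmpos : (0 : ℝ) < m := by positivity
  have h2 : ((2 * m : ℕ) : ℝ) ^ (C / ((C + 1) * 1)) < m := by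
    have h3 : (0 : ℝ) ≤ ((2 * m : ℕ) : ℝ) ^ (C / ((C + 1) * 1)) :=
      Real.rpow_nonneg (Nat.cast_nonneg _) _
    have hC1 : (0 : ℝ) < C + 1 := by linarith
    rw [← Real.rpow_lt_rpow_iff h3 hmpos.le hC1, ← Real.rpow_mul (Nat.cast_nonneg _)]
    have h4 : C / ((C + 1) * 1) * (C + 1) = C := by field_simp
    rw [h4, Real.rpow_add_one hmpos.ne']
    push_cast
    rw [Real.mul_rpow zero_le_two hmpos.le, mul_comm]
    exact mul_lt_mul_of_pos_left hmC (Real.rpow_pos_of_pos hmpos _)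
  have h5 : (m : ℝ) ≤ k := by exact_mod_cast h1
  linarith

end Pool.Agent.Results.MP_8476ae_an.IsometricCase
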